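import Mathlib

/-!
# The Ky Fan form of the leaf bound

For `O` with three orthonormal columns, `P' ≥ 0`, `P = P' + θ` invertible:
`2 ⟨O, X⟩ ≤ tr P' + 3 θ + tr (P⁻¹ X Xᵀ)`.
-/

set_option autoImplicit false

namespace Pool.Agent.Helper34.FIVE

open Matrix

variable {R : Type*} [Fintype R] [DecidableEq R]

/-- the trace of a compression of a positive semidefinite matrix to the range of an isometry -/
theorem trace_compress_le {C : Type*} [Fintype C] [DecidableEq C] (O : Matrix R C ℝ) (hO : Oᵀ * O = 1)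
    (P : Matrix R R ℝ) (hP : P.PosSemidef) : (Oᵀ * P * O).trace ≤ P.trace := by
  have h1 : (Oᵀ * P * O).trace = (P * (O * Oᵀ)).trace := by
    rw [Matrix.mul_assoc, Matrix.trace_mul_comm, Matrix.mul_assoc]
  set E : Matrix R R ℝ := 1 - O * Oᵀ with hE
  have hEt : Eᵀ = E := by
    rw [hE, Matrix.transpose_sub, Matrix.transpose_mul, Matrix.transpose_transpose, Matrix.transpose_one]
  have hEE : E * E = E := by
    have h2 : O * Oᵀ * (O * Oᵀ) = O * Oᵀ := by
      rw [Matrix.mul_assoc, ← Matrix.mul_assoc Oᵀ O Oᵀ, hO, Matrix.one_mul]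
    rw [hE, Matrix.sub_mul, Matrix.one_mul, Matrix.mul_sub, Matrix.mul_one, h2, sub_self, sub_zero]
  have h3 : (Eᵀ * P * E).PosSemidef := by
    simpa using hP.conjTranspose_mul_mul_same E
  have h4 : 0 ≤ (Eᵀ * P * E).trace := h3.trace_nonneg
  have h5 : (Eᵀ * P * E).trace = (P * E).trace := by
    rw [hEt, Matrix.mul_assoc, Matrix.trace_mul_comm, Matrix.mul_assoc, hEE]
  have h6 : (P * E).trace = P.trace - (P * (O * Oᵀ)).trace := by
    rw [hE, Matrix.mul_sub, Matrix.mul_one, Matrix.trace_sub]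
  rw [h1]
  linarith [h4, h5, h6]

/-- the Ky Fan form of the base: `tr (Oᵀ (P' + θ) O) ≤ tr P' + 3 θ` -/
theorem trace_kyfan (O : Matrix R (Fin 3) ℝ) (hO : Oᵀ * O = 1) (P : Matrix R R ℝ) (hP : P.PosSemidef)
    (θ : ℝ) : (Oᵀ * (P + θ • (1 : Matrix R R ℝ)) * O).trace ≤ P.trace + 3 * θ := by
  have h1 : Oᵀ * (P + θ • (1 : Matrix R R ℝ)) * O = Oᵀ * P * O + θ • (1 : Matrix (Fin 3) (Fin 3) ℝ) := by
    rw [Matrix.mul_add, Matrix.add_mul, Matrix.mul_smul, Matrix.mul_one, Matrix.smul_mul, hO]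
  rw [h1, Matrix.trace_add, Matrix.trace_smul, Matrix.trace_one]
  have h2 := trace_compress_le O hO P hP
  simp only [Fintype.card_fin, smul_eq_mul]
  push_cast
  linarith

/-- **the leaf bound in Ky Fan form**: `G` is any matrix with `G * (P' + θ) = 1` -/
theorem leaf_kyfan (O X : Matrix R (Fin 3) ℝ) (hO : Oᵀ * O = 1) (P G : Matrix R R ℝ) (hP : P.PosSemidef)
    (θ : ℝ) (hθ : 0 ≤ θ) (hG : G * (P + θ • (1 : Matrix R R ℝ)) = 1) :
    2 * (Oᵀ * X).trace ≤ P.trace + 3 * θ + (Xᵀ * G * X).trace := by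
  set A : Matrix R R ℝ := P + θ • (1 : Matrix R R ℝ) with hA
  have hAs : A.PosSemidef := hP.add (Matrix.PosSemidef.one.smul hθ)
  have hAt : Aᵀ = A := by simpa using hAs.isHermitian.eq
  have hGA : A * G = 1 := mul_eq_one_comm.mp hG
  have hGt : Gᵀ = G := by
    have h1 : Gᵀ * A = 1 := by
      have := congrArg Matrix.transpose hGA
      rwa [Matrix.transpose_mul, Matrix.transpose_one, hAt] at this
    calc Gᵀ = Gᵀ * (A * G) := by rw [hGA, Matrix.mul_one]
      _ = (Gᵀ * A) * G := by rw [Matrix.mul_assoc]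
      _ = G := by rw [h1, Matrix.one_mul]
  have h0 : ((O - G * X)ᵀ * A * (O - G * X)).PosSemidef := by
    simpa using hAs.conjTranspose_mul_mul_same (O - G * X)
  have h1 : 0 ≤ ((O - G * X)ᵀ * A * (O - G * X)).trace := h0.trace_nonneg
  have h2 : (O - G * X)ᵀ * A * (O - G * X) = Oᵀ * A * O - Oᵀ * X - Xᵀ * O + Xᵀ * G * X := by
    rw [Matrix.transpose_sub, Matrix.transpose_mul, hGt]
    have e1 : Xᵀ * G * A = Xᵀ := by rw [Matrix.mul_assoc, hG, Matrix.mul_one]
    rw [Matrix.sub_mul, e1, Matrix.sub_mul, Matrix.mul_sub, Matrix.mul_sub]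
    have e2 : Oᵀ * A * (G * X) = Oᵀ * X := by
      rw [Matrix.mul_assoc, ← Matrix.mul_assoc A G X, hGA, Matrix.one_mul]
    rw [e2, ← Matrix.mul_assoc Xᵀ G X]
    abel
  have h3 : (Xᵀ * O).trace = (Oᵀ * X).trace := by
    rw [← Matrix.trace_transpose, Matrix.transpose_mul, Matrix.transpose_transpose]
  rw [h2, Matrix.trace_add, Matrix.trace_sub, Matrix.trace_sub, h3] at h1
  have h4 := trace_kyfan O hO P hP θ
  linarith

end Pool.Agent.Helper34.FIVE
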