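import Pool.Agent.Helper38.TET.Simplex

/-!
# A lattice-free tetrahedron is a lattice-free polytope given by five inequalities
-/

set_option autoImplicit false

namespace Pool.Agent.Helper34.FIVE

open Matrix

/-- one inequality of the four is written twice -/
theorem set_eq (g : Fin 4 → Fin 3 → ℝ) (b : Fin 4 → ℝ) :
    {x : Fin 3 → ℝ | ∀ i : Fin 5, ∑ j, (Fin.cons (g 0) g : Fin 5 → Fin 3 → ℝ) i j * x j ≤
      (Fin.cons (b 0) b : Fin 5 → ℝ) i} = {x | ∀ j, g j ⬝ᵥ x ≤ b j} := by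
  ext x
  simp only [Set.mem_setOf_eq, dotProduct]
  constructor
  · intro h j
    have := h j.succ
    simpa using this
  · intro h i
    refine Fin.cases ?_ (fun j => ?_) i
    · simpa using h 0
    · simpa using h j

/-- **a lattice-free tetrahedron is given by five inequalities** -/
theorem five_of_tet (v : Fin 4 → Fin 3 → ℝ) (hv : AffineIndependent ℝ v)
    (hfree : ∀ z : Fin 3 → ℤ, (fun i => (z i : ℝ)) ∉ interior (convexHull ℝ (Set.range v))) :
    ∃ (w : Fin 5 → Fin 3 → ℝ) (b : Fin 5 → ℝ),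
      Bornology.IsBounded {x : Fin 3 → ℝ | ∀ i, ∑ j, w i j * x j ≤ b i} ∧
      (∀ z : Fin 3 → ℤ, (fun j => (z j : ℝ)) ∉ interior {x : Fin 3 → ℝ | ∀ i, ∑ j, w i j * x j ≤ b i}) ∧
      convexHull ℝ (Set.range v) ⊆ {x : Fin 3 → ℝ | ∀ i, ∑ j, w i j * x j ≤ b i} := by
  obtain ⟨g, b, -, -, -, hconv, -, -⟩ := Pool.Agent.Helper38.TET.facets v hv
  refine ⟨Fin.cons (g 0) g, Fin.cons (b 0) b, ?_, ?_, ?_⟩
  · rw [set_eq, ← hconv]
    exact ((Set.finite_range v).isCompact_convexHull (𝕜 := ℝ)).isBounded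
  · intro z
    rw [set_eq, ← hconv]
    exact hfree z
  · rw [set_eq, ← hconv]

end Pool.Agent.Helper34.FIVE
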